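import Pool.Agent.W217.BE.Stm3
import Pool.Agent.W493.BEMINP

set_option autoImplicit false

namespace Pool.Agent.W694.BEMINQ

open Pool.Agent.W217.BE

theorem main : HOMANN → MINQ := by
  intro HA A _ _ k M _ _ _ _ ℳ hint hX Q hQ q J hqQ hJ r hr hrq hK
  have hC : ∀ a, a ∈ q ↔ (MvPolynomial.C a : MvPolynomial (Fin k) A) ∈ Q := by
    intro a
    rw [hqQ, Ideal.mem_comap, MvPolynomial.algebraMap_eq]
  have hker : (RingHom.ker (Pool.Agent.W493.BEMINP.Phi J r)).IsPrime := RingHom.ker_isPrime _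
  have h1 : RingHom.ker (Pool.Agent.W493.BEMINP.Phi J r) ≤ Q := by
    intro f hf
    exact Pool.Agent.W493.BEMINP.mem_of_coeffs J r Q (fun a ha => (hC a).1 (hrq ha))
      (fun j hj => (hJ j).1 hj) f ((Pool.Agent.W493.BEMINP.mem_ker_Phi J r f).1 hf)
  have h2 : Module.annihilator (MvPolynomial (Fin k) A) M ≤
      RingHom.ker (Pool.Agent.W493.BEMINP.Phi J r) := by
    intro f hf
    rw [Pool.Agent.W493.BEMINP.mem_ker_Phi]
    intro α hα
    exact hK _ ⟨α, hα, fun x => Module.mem_annihilator.1 (HA A k M ℳ hint hX f hf α) x⟩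
  have h3 : Q ≤ RingHom.ker (Pool.Agent.W493.BEMINP.Phi J r) := hQ.2 ⟨hker, h2⟩ h1
  refine le_antisymm hrq fun a ha => ?_
  have h4 := (Pool.Agent.W493.BEMINP.mem_ker_Phi J r _).1 (h3 ((hC a).1 ha)) 0 (fun j _ => rfl)
  simpa using h4

end Pool.Agent.W694.BEMINQ
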